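import Pool.Agent.Helper37.BP.Defs

/-! Part XC of the blueprint for MP_6f6997_an: the space `XX D` is closed. -/

open MeasureTheory
open scoped ENNReal NNReal

set_option maxSynthPendingDepth 3

namespace Pool.Agent.Helper92.BAP

open Pool.Agent.BAPp (sgn)
open Pool.Agent.Helper37.BP

theorem XX_closed {Γ I : Type} [DecidableEq I] (D : Sys Γ I) :
    IsClosed (XX D : Set (lp (fun _ : Γ ⊕ Om I => ℝ) ∞)) := by
  have hc : ∀ θ : Γ ⊕ Om I, Continuous fun x : lp (fun _ : Γ ⊕ Om I => ℝ) ∞ => x θ := by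
    intro θ
    have h := (lp.uniformContinuous_coe (E := fun _ : Γ ⊕ Om I => ℝ) (p := ∞)).continuous
    exact (continuous_apply θ).comp h
  have hset : (XX D : Set (lp (fun _ : Γ ⊕ Om I => ℝ) ∞)) =
      ⋂ (F : Finset I) (i : F), {x | ip D.ρ (D.vh i) (fun γ => x (Sum.inl γ)) =
        av (fun ω : F → Bool => x (Sum.inr ⟨F, ω⟩)) i} := by
    ext x
    simp only [Set.mem_iInter, Set.mem_ofPred_eq]
    rfl
  rw [hset]
  refine isClosed_iInter fun F => isClosed_iInter fun i => isClosed_eq ?_ ?_
  · have hf := D.fin_supp (i : I)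
    have : (fun x : lp (fun _ : Γ ⊕ Om I => ℝ) ∞ =>
        ip D.ρ (D.vh i) (fun γ => x (Sum.inl γ))) =
        fun x => ∑ γ ∈ hf.toFinset, D.ρ γ * (D.vh i γ * x (Sum.inl γ)) := by
      funext x
      unfold ip
      refine tsum_eq_sum fun γ hγ => ?_
      have h0 : D.vh i γ = 0 := by
        by_contra h
        exact hγ (hf.mem_toFinset.2 h)
      rw [h0]; ring
    rw [this]
    exact continuous_finsetSum _ fun γ _ =>
      continuous_const.mul (continuous_const.mul (hc _))
  · unfold av
    refine Continuous.div_const (continuous_finsetSum _ fun ω _ => ?_) _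
    exact continuous_const.mul (hc (Sum.inr ⟨F, ω⟩))

end Pool.Agent.Helper92.BAP
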