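import Pool.Agent.Helper37.BP.SysDefs

/-! Part SB of the blueprint for MP_6f6997_an: the `L_p` bound. -/

open MeasureTheory
open scoped ENNReal NNReal

set_option maxSynthPendingDepth 3

namespace Pool.Agent.Helper92.BAP

open Pool.Agent.BAPp (sgn)
open Pool.Agent.Helper37.BP

theorem abs_sgn' (b : Bool) : |sgn b| = 1 := by
  cases b <;> simp [sgn]

theorem eta_bound (t : Tree) (s p : ℝ) (hs0 : 0 < s) (hs1 : s < 1) (hp : 1 < p) (k : ℕ)
    (j0 : Sg k) (θ : Sg k → Bool) :
    ∑' γ, rho s γ * |∑ j ∈ t.B k j0, sgn (θ j) * xi t s k j γ| ^ p ≤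
      t.b k * (t.m k * rp s k) ^ (1 - p) := by
  classical
  have hp0 : 0 < p := by linarith
  have hrp : 0 < rp s k := by
    unfold rp
    have : 0 < 1 - s := by linarith
    positivity
  have hm : 0 < (t.m k : ℝ) := by
    have h1 : 0 < t.m k := by
      rw [← t.A_card k j0]
      exact Finset.card_pos.2 ⟨j0, t.A_self k j0⟩
    exact_mod_cast h1
  set N : ℝ := t.m k * rp s k with hN
  have hN0 : 0 < N := mul_pos hm hrp
  -- the pointwise bound on level `k`
  have hpt : ∀ g : Sg k × (Sg k → Bool),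
      |∑ j ∈ t.B k j0, sgn (θ j) * xi t s k j ⟨k, g⟩| ^ p ≤
        ∑ j ∈ t.B k j0, (if g.1 ∈ t.A k j then N ^ (-p) else 0) := by
    intro g
    have hterm : ∀ j, sgn (θ j) * xi t s k j ⟨k, g⟩ =
        if g.1 ∈ t.A k j then sgn (θ j) * sgn (g.2 j) / N else 0 := by
      intro j
      unfold xi ev
      rw [lev_same]
      split_ifs
      · rw [hN]; ring
      · simp
    simp_rw [hterm]
    by_cases hex : ∃ j ∈ t.B k j0, g.1 ∈ t.A k j
    · obtain ⟨j, hj, hgj⟩ := hex
      have huniq : ∀ j' ∈ t.B k j0, j' ≠ j → ¬ g.1 ∈ t.A k j' := by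
        intro j' hj' hne hg'
        apply hne
        refine t.sep k j j' ?_ ?_
        · rw [t.B_eq k j0 j hj]; exact hj'
        · rw [← t.A_eq k j g.1 hgj, t.A_eq k j' g.1 hg']
          exact t.A_self k j'
      rw [Finset.sum_eq_single_of_mem j hj (fun j' hj' hne => if_neg (huniq j' hj' hne)),
        Finset.sum_eq_single_of_mem j hj (fun j' hj' hne => if_neg (huniq j' hj' hne)),
        if_pos hgj, if_pos hgj, abs_div, abs_mul, abs_sgn', abs_sgn', abs_of_pos hN0,
        mul_one, one_div, Real.inv_rpow hN0.le, Real.rpow_neg hN0.le]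
    · push Not at hex
      rw [Finset.sum_eq_zero (fun j hj => if_neg (hex j hj)),
        Finset.sum_eq_zero (fun j hj => if_neg (hex j hj)), abs_zero, Real.zero_rpow hp0.ne']
  -- reduce the sum to level `k`
  have hsupp : Function.support (fun γ : Gam =>
      rho s γ * |∑ j ∈ t.B k j0, sgn (θ j) * xi t s k j γ| ^ p) ⊆
      Set.range (fun g : Sg k × (Sg k → Bool) => (⟨k, g⟩ : Gam)) := by
    intro γ hγ
    by_contra hr
    apply hγ
    have hk : γ.1 ≠ k := by
      rintro rfl
      exact hr ⟨γ.2, rfl⟩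
    have : ∑ j ∈ t.B k j0, sgn (θ j) * xi t s k j γ = 0 := by
      refine Finset.sum_eq_zero fun j _ => ?_
      unfold xi ev
      rw [lev_ne _ _ _ hk]; simp
    simp only [this, abs_zero, Real.zero_rpow hp0.ne', mul_zero]
  have hinj : Function.Injective (fun g : Sg k × (Sg k → Bool) => (⟨k, g⟩ : Gam)) := by
    intro a b hab
    simpa using hab
  rw [← hinj.tsum_eq hsupp, tsum_fintype]
  calc ∑ g : Sg k × (Sg k → Bool), rho s ⟨k, g⟩ *
        |∑ j ∈ t.B k j0, sgn (θ j) * xi t s k j ⟨k, g⟩| ^ p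
      ≤ ∑ g : Sg k × (Sg k → Bool), (rp s k / 2 ^ (2 ^ k)) *
        ∑ j ∈ t.B k j0, (if g.1 ∈ t.A k j then N ^ (-p) else 0) := by
        refine Finset.sum_le_sum fun g _ => ?_
        have hr : rho s (⟨k, g⟩ : Gam) = rp s k / 2 ^ (2 ^ k) := rfl
        rw [hr]
        exact mul_le_mul_of_nonneg_left (hpt g) (by positivity)
    _ = t.b k * N ^ (1 - p) := by
        have h1 : ∀ j ∈ t.B k j0, ∑ h : Sg k, (if h ∈ t.A k j then N ^ (-p) else 0) =
            t.m k * N ^ (-p) := by
          intro j _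
          rw [← Finset.sum_filter, Finset.sum_const, nsmul_eq_mul]
          congr 1
          rw [← t.A_card k j]
          congr 2
          ext h
          simp
        have h0 : ∑ g : Sg k × (Sg k → Bool),
            ∑ j ∈ t.B k j0, (if g.1 ∈ t.A k j then N ^ (-p) else 0) =
            ((t.b k : ℝ) * (t.m k * N ^ (-p))) * 2 ^ (2 ^ k) := by
          rw [Fintype.sum_prod_type]
          have h4 : ∀ h : Sg k, ∑ _ε : Sg k → Bool,
              ∑ j ∈ t.B k j0, (if h ∈ t.A k j then N ^ (-p) else 0) =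
              (2 ^ (2 ^ k)) * ∑ j ∈ t.B k j0, (if h ∈ t.A k j then N ^ (-p) else 0) := by
            intro h
            rw [Finset.sum_const, Finset.card_univ, nsmul_eq_mul]
            congr 1
            simp
          rw [Finset.sum_congr rfl (fun h _ => h4 h), ← Finset.mul_sum, Finset.sum_comm,
            Finset.sum_congr rfl h1, Finset.sum_const, t.B_card, nsmul_eq_mul]
          ring
        rw [← Finset.mul_sum, h0]
        have h2 : N ^ (1 - p) = N * N ^ (-p) := by
          rw [sub_eq_add_neg, Real.rpow_add hN0, Real.rpow_one]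
        rw [h2, hN]
        have h3 : (2 : ℝ) ^ (2 ^ k) ≠ 0 := by positivity
        field_simp

end Pool.Agent.Helper92.BAP
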